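import Pool.Agent.H590Z.HC.Defs

set_option autoImplicit false

open MeasureTheory Filter Topology Complex

namespace Pool.Agent.H590Z.HC

namespace H488

lemma inner_ex (a b : ℝ) : inner ℂ (ex a) (ex b) =
    ∫ t in (-Real.pi)..Real.pi, Complex.exp (I * ((b : ℂ) - a) * t) := by
  rw [intervalIntegral.integral_of_le (by linarith [Real.pi_pos]), L2.inner_def]
  apply integral_congr_ae
  filter_upwards [(memLp_exp a).coeFn_toLp, (memLp_exp b).coeFn_toLp] with t h1 h2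
  rw [ex, ex, h1, h2, RCLike.inner_apply, ← Complex.exp_conj, ← Complex.exp_add]
  congr 1
  simp only [map_mul, conj_I, conj_ofReal]
  ring

/-- the sign -/
noncomputable def sg (n : ℤ) : ℂ := Complex.exp (n * (Real.pi * I))

lemma sg_mul (n : ℤ) : sg n * sg n = 1 := by
  rw [sg, ← Complex.exp_add, ← Complex.exp_int_mul_two_pi_mul_I n]
  congr 1
  ring

lemma sg_neg (n : ℤ) : sg (-n) = sg n := by
  have h : sg (-n) * sg n = 1 := by
    rw [sg, sg, ← Complex.exp_add]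
    simp
  calc sg (-n) = sg (-n) * (sg n * sg n) := by rw [sg_mul, mul_one]
    _ = sg n := by rw [← mul_assoc, h, one_mul]

lemma sg_add (m n : ℤ) : sg (m + n) = sg m * sg n := by
  rw [sg, sg, sg, ← Complex.exp_add]
  congr 1
  push_cast
  ring

lemma norm_sg (n : ℤ) : ‖sg n‖ = 1 := by
  have h := congrArg norm (sg_mul n)
  rw [norm_mul, norm_one] at h
  nlinarith [norm_nonneg (sg n)]

lemma ortho (s : ℝ) :
    Orthonormal ℂ fun n : ℤ => (((√(2 * Real.pi))⁻¹ : ℝ) : ℂ) • ex ((n + s : ℝ) : ℂ) := by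
  rw [orthonormal_iff_ite]
  intro m n
  have hp : 0 < 2 * Real.pi := by linarith [Real.pi_pos]
  rw [inner_smul_left, inner_smul_right, inner_ex, conj_ofReal]
  split_ifs with h
  · subst h
    simp only [sub_self, mul_zero, zero_mul, Complex.exp_zero, intervalIntegral.integral_const,
      real_smul, mul_one]
    rw [← ofReal_mul, ← ofReal_mul, ← ofReal_one]
    congr 1
    have := Real.mul_self_sqrt hp.le
    have h2 := Real.sqrt_pos.2 hp
    field_simp
    linarith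
  · have h1 : (I * (((n + s : ℝ) : ℂ) - (m + s : ℝ))) = I * ((n - m : ℤ) : ℂ) := by
      push_cast
      ring
    have h2 : I * ((n - m : ℤ) : ℂ) ≠ 0 :=
      mul_ne_zero I_ne_zero (by exact_mod_cast sub_ne_zero.2 (Ne.symm h))
    rw [h1, integral_exp_mul_complex h2]
    have h3 : Complex.exp (I * ((n - m : ℤ) : ℂ) * (Real.pi : ℝ)) = sg (n - m) := by
      rw [sg]
      congr 1
      ring
    have h4 : Complex.exp (I * ((n - m : ℤ) : ℂ) * ((-Real.pi : ℝ) : ℂ)) = sg (-(n - m)) := by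
      rw [sg]
      congr 1
      push_cast
      ring
    rw [h3, h4, sg_neg]
    simp

lemma inner_half (m n : ℤ) : inner ℂ (ex ((m + 1 / 2 : ℝ) : ℂ)) (ex ((n + 0 : ℝ) : ℂ)) =
    sg m * sg n * (2 / ((m : ℂ) + 1 / 2 - n)) := by
  have h0 : ((m : ℂ) + 1 / 2 - n) ≠ 0 := by
    intro h
    have h1 : (m : ℝ) + 1 / 2 - n = 0 := by simpa using congrArg Complex.re h
    have h2 : (2 * (m - n) + 1 : ℤ) = 0 := by
      have : ((2 * (m - n) + 1 : ℤ) : ℝ) = 0 := by
        push_cast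
        linarith
      exact_mod_cast this
    omega
  have h1 : (I * (((n + 0 : ℝ) : ℂ) - (m + 1 / 2 : ℝ))) = -(I * ((m : ℂ) + 1 / 2 - n)) := by
    push_cast
    ring
  rw [inner_ex, h1, integral_exp_mul_complex (neg_ne_zero.2 (mul_ne_zero I_ne_zero h0))]
  have h3 : Complex.exp (-(I * ((m : ℂ) + 1 / 2 - n)) * (Real.pi : ℝ)) =
      sg (-m + n) * Complex.exp (-(Real.pi / 2 * I)) := by
    rw [sg, ← Complex.exp_add]
    congr 1
    push_cast
    ring
  have h4 : Complex.exp (-(I * ((m : ℂ) + 1 / 2 - n)) * ((-Real.pi : ℝ) : ℂ)) =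
      sg (m + -n) * Complex.exp (Real.pi / 2 * I) := by
    rw [sg, ← Complex.exp_add]
    congr 1
    push_cast
    ring
  rw [h3, h4, sg_add, sg_add, sg_neg, sg_neg, Complex.exp_neg, Complex.exp_pi_div_two_mul_I,
    inv_I]
  field_simp
  ring

end H488

open H488 in
theorem hilbert_ineq (c : ℤ → ℂ) (F M : Finset ℤ) :
    ∑ m ∈ M, ‖∑ n ∈ F, c n / ((m : ℂ) + 1 / 2 - n)‖ ^ 2 ≤ 10 * ∑ n ∈ F, ‖c n‖ ^ 2 := by
  have hp : 0 < 2 * Real.pi := by linarith [Real.pi_pos]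
  set r : ℝ := (√(2 * Real.pi))⁻¹ with hr
  have hr2 : r * r = (2 * Real.pi)⁻¹ := by
    rw [hr, ← mul_inv, Real.mul_self_sqrt hp.le]
  set g : H := ∑ n ∈ F, (sg n * c n) • ((r : ℂ) • ex ((n + 0 : ℝ) : ℂ)) with hg
  have h1 := (ortho (1 / 2)).sum_inner_products_le g (s := M)
  have h2 : ‖g‖ ^ 2 = ∑ n ∈ F, ‖c n‖ ^ 2 := by
    have h3 := (ortho 0).inner_sum (fun n => sg n * c n) (fun n => sg n * c n) F
    rw [← hg, inner_self_eq_norm_sq_to_K] at h3
    have h4 : ∀ n, (starRingEnd ℂ) (sg n * c n) * (sg n * c n) = ((‖c n‖ ^ 2 : ℝ) : ℂ) := by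
      intro n
      rw [Complex.conj_mul', norm_mul, norm_sg, one_mul]
      push_cast
      rfl
    simp only [h4] at h3
    apply Complex.ofReal_injective
    push_cast at h3 ⊢
    exact h3
  have h5 : ∀ m : ℤ, ‖inner ℂ ((r : ℂ) • ex ((m + 1 / 2 : ℝ) : ℂ)) g‖ =
      Real.pi⁻¹ * ‖∑ n ∈ F, c n / ((m : ℂ) + 1 / 2 - n)‖ := by
    intro m
    have h6 : inner ℂ ((r : ℂ) • ex ((m + 1 / 2 : ℝ) : ℂ)) g =
        (sg m * ((r * r * 2 : ℝ) : ℂ)) * ∑ n ∈ F, c n / ((m : ℂ) + 1 / 2 - n) := by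
      rw [hg, inner_sum, Finset.mul_sum]
      refine Finset.sum_congr rfl fun n _ => ?_
      rw [inner_smul_left, inner_smul_right, inner_smul_right, inner_half, conj_ofReal]
      push_cast
      linear_combination (r * r * 2 * sg m * (c n / ((m : ℂ) + 1 / 2 - n))) * sg_mul n
    rw [h6, norm_mul, norm_mul, norm_sg, one_mul, hr2, Complex.norm_real,
      Real.norm_of_nonneg (by positivity)]
    congr 1
    field_simp
  replace h1 : ∑ m ∈ M, ‖inner ℂ ((r : ℂ) • ex ((m + 1 / 2 : ℝ) : ℂ)) g‖ ^ 2 ≤ ‖g‖ ^ 2 := h1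
  simp only [h5, mul_pow] at h1
  rw [← Finset.mul_sum, h2] at h1
  have h7 : Real.pi ^ 2 ≤ 10 := by nlinarith [Real.pi_lt_d2, Real.pi_pos]
  have h8 : 0 ≤ ∑ n ∈ F, ‖c n‖ ^ 2 := Finset.sum_nonneg fun n _ => sq_nonneg _
  have h9 : 0 < Real.pi ^ 2 := by positivity
  rw [inv_pow, inv_mul_le_iff₀ h9] at h1
  exact h1.trans (mul_le_mul_of_nonneg_right h7 h8)

end Pool.Agent.H590Z.HC
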